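import Mathlib
import Pool.Agent.Lib.MP_5af839_lc.Defs
import Pool.Agent.Lib.MP_5af839_lc.Transversal

set_option autoImplicit false

namespace Pool.Agent.Results.MP_5af839_lc.Undetermined

open Pool.Agent.Lib.MP_5af839_lc

/-- There is a graph property `S` such that neither Seeker nor Hider has a winning strategy in
the edge-query game `G(S)`. -/
theorem result : ∃ S : Set (SimpleGraph ℕ), IsGraphProperty S ∧
    (¬ ∃ σ : List (Sym2 ℕ × Bool) → Sym2 ℕ, SeekerWinning S σ) ∧
    (¬ ∃ τ : List (Sym2 ℕ × Bool) → Sym2 ℕ → Bool, HiderWinning S τ) :=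
  exists_undetermined

end Pool.Agent.Results.MP_5af839_lc.Undetermined
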